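import Pool.Agent.P.MP_7b40b5_an.Examples

open Polynomial Pool.Agent.P.MP_7b40b5_an

namespace Pool.Agent.Results.MP_7b40b5_an.Counterexample

/-- For each sign `δ = ±1` there is an irreducible Pisot substitution `σ` on three letters with
`det M_σ = δ`, different from its reversal, with different one-sided fixed points `u` of `σ` and
`v` of the reversal, such that the balanced pair algorithm started at the shortest balanced pair
`P₀` of initial segments of `u, v` yields a finite set `𝓑` (listed without repetition by `e`)
and a substitution `S` on `𝓑`, with `p ≠ ±q`, and `q` does not divide the characteristic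
polynomial of the incidence matrix of `S`. Here `p` is the characteristic polynomial of `M_σ`
and `q = p.reverse = x³ p(1/x)`. -/
theorem result (δ : ℚ) (hδ : δ = 1 ∨ δ = -1) :
    ∃ (σ : Fin 3 → List (Fin 3)) (u v : ℕ → Fin 3) (n₀ N : ℕ)
      (e : Fin N → List (Fin 3) × List (Fin 3)) (S : Fin N → List (Fin N)),
      IsIrreduciblePisot σ ∧ (incidence σ).det = δ ∧ reversal σ ≠ σ ∧
      IsFixedPoint σ u ∧ IsFixedPoint (reversal σ) v ∧ u ≠ v ∧
      IsLeast {n | 1 ≤ n ∧ Balanced (firstLetters u n) (firstLetters v n)} n₀ ∧
      Function.Injective e ∧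
      Set.range e =
        {Q | Relation.ReflTransGen (Step σ) (firstLetters u n₀, firstLetters v n₀) Q} ∧
      (∀ j, IsSplitting (applySub σ (e j).1) (applySub (reversal σ) (e j).2) ((S j).map e)) ∧
      (incidence σ).charpoly ≠ (incidence σ).charpoly.reverse ∧
      (incidence σ).charpoly ≠ -(incidence σ).charpoly.reverse ∧
      ¬ (incidence σ).charpoly.reverse ∣ (incidence S).charpoly := by
  have least : ∀ (u v : ℕ → Fin 3) (a b : Fin 3), a ≠ b → firstLetters u 2 = [a, b] →
      firstLetters v 2 = [b, a] →
      u ≠ v ∧ IsLeast {n | 1 ≤ n ∧ Balanced (firstLetters u n) (firstLetters v n)} 2 := by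
    intro u v a b hab hu hv
    refine ⟨?_, ⟨by norm_num, ?_⟩, ?_⟩
    · rintro rfl
      rw [hu] at hv
      exact hab (List.cons.inj hv).1
    · rw [hu, hv]
      exact List.perm_iff_count.mp (List.Perm.swap _ _ _)
    · rintro n ⟨h1, h2⟩
      by_contra hlt
      have hn : n = 1 := by omega
      subst hn
      rw [← firstLetters_take u (by norm_num : 1 ≤ 2), ← firstLetters_take v (by norm_num : 1 ≤ 2),
        hu, hv] at h2
      have := h2 a
      simp [hab.symm] at this
  rcases hδ with rfl | rfl
  · obtain ⟨u, hu, hu'⟩ := exists_fixedPoint s1 (by decide) 1 2 [] rfl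
    obtain ⟨v, hv, hv'⟩ := exists_fixedPoint (reversal s1) (by decide) 2 1 [0] rfl
    have hu2 : firstLetters u 2 = [1, 2] := hu' 1
    have hv2 : firstLetters v 2 = [2, 1] := by
      have h3 : firstLetters v 3 = [2, 1, 0] := hv' 1
      rw [← firstLetters_take v (by norm_num : 2 ≤ 3), h3]
      rfl
    obtain ⟨huv, hl⟩ := least u v 1 2 (by decide) hu2 hv2
    have hS : ∀ j, IsSplitting (applySub s1 (e1 j).1) (applySub (reversal s1) (e1 j).2)
        ((t1 j).map e1) := by decide
    refine ⟨s1, u, v, 2, 3, e1, t1, pisot_s1, ?_, by decide, hu, hv, huv, hl, by decide, ?_, hS,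
      ?_, ?_, not_dvd_1⟩
    · rw [inc_s1, Matrix.det_fin_three]
      simp
    · rw [hu2, hv2]
      refine reachable_eq_range s1 e1 t1 0 hS ?_
      have r0 : Relation.ReflTransGen (fun a b => b ∈ t1 a) 0 0 := .refl
      have r1 : Relation.ReflTransGen (fun a b => b ∈ t1 a) 0 1 := r0.tail (by decide)
      have r2 : Relation.ReflTransGen (fun a b => b ∈ t1 a) 0 2 := r1.tail (by decide)
      intro j
      fin_cases j <;> assumption
    · rw [cp_s1, reverse_cubic]
      intro h
      have := congrArg (eval 0) h
      norm_num at this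
    · rw [cp_s1, reverse_cubic]
      intro h
      have := congrArg (eval 1) h
      norm_num at this
  · obtain ⟨u, hu, hu'⟩ := exists_fixedPoint s2 (by decide) 2 1 [] rfl
    obtain ⟨v, hv, hv'⟩ := exists_fixedPoint (reversal s2) (by decide) 1 2 [0] rfl
    have hu2 : firstLetters u 2 = [2, 1] := hu' 1
    have hv2 : firstLetters v 2 = [1, 2] := by
      have h3 : firstLetters v 3 = [1, 2, 0] := hv' 1
      rw [← firstLetters_take v (by norm_num : 2 ≤ 3), h3]
      rfl
    obtain ⟨huv, hl⟩ := least u v 2 1 (by decide) hu2 hv2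
    have hS : ∀ j, IsSplitting (applySub s2 (e2 j).1) (applySub (reversal s2) (e2 j).2)
        ((t2 j).map e2) := by decide
    refine ⟨s2, u, v, 2, 7, e2, t2, pisot_s2, ?_, by decide, hu, hv, huv, hl, by decide, ?_, hS,
      ?_, ?_, not_dvd_2⟩
    · rw [inc_s2, Matrix.det_fin_three]
      simp
    · rw [hu2, hv2]
      refine reachable_eq_range s2 e2 t2 0 hS ?_
      have r0 : Relation.ReflTransGen (fun a b => b ∈ t2 a) 0 0 := .refl
      have r1 : Relation.ReflTransGen (fun a b => b ∈ t2 a) 0 1 := r0.tail (by decide)
      have r2 : Relation.ReflTransGen (fun a b => b ∈ t2 a) 0 2 := r1.tail (by decide)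
      have r3 : Relation.ReflTransGen (fun a b => b ∈ t2 a) 0 3 := r2.tail (by decide)
      have r4 : Relation.ReflTransGen (fun a b => b ∈ t2 a) 0 4 := r3.tail (by decide)
      have r5 : Relation.ReflTransGen (fun a b => b ∈ t2 a) 0 5 := r3.tail (by decide)
      have r6 : Relation.ReflTransGen (fun a b => b ∈ t2 a) 0 6 := r5.tail (by decide)
      intro j
      fin_cases j <;> assumption
    · rw [cp_s2, reverse_cubic]
      intro h
      have := congrArg (eval 2) h
      norm_num at this
    · rw [cp_s2, reverse_cubic]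
      intro h
      have := congrArg (eval 0) h
      norm_num at this

end Pool.Agent.Results.MP_7b40b5_an.Counterexample
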